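import Mathlib
set_option autoImplicit false

/-!
# Symmetric configurations and their embeddings
-/

namespace Pool.Agent.V11226.UE

open Finset

/-- A symmetric configuration `v₃`: the points are the elements of `Fin v`, the blocks are the sets
`B j`, `j : Fin v`. Every block has three points, every point is in three blocks, and two different
blocks have at most one common point. -/
structure Config (v : ℕ) where
  B : Fin v → Finset (Fin v)
  card_B : ∀ j, (B j).card = 3
  deg : ∀ p, (univ.filter fun j => p ∈ B j).card = 3
  lin : ∀ i j, i ≠ j → (B i ∩ B j).card ≤ 1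

variable {v : ℕ}

/-- The associated graph `K`: two different points are adjacent if some block contains both. -/
def Config.graph (X : Config v) : SimpleGraph (Fin v) where
  Adj p q := p ≠ q ∧ ∃ j, p ∈ X.B j ∧ q ∈ X.B j
  symm := ⟨fun _ _ h => ⟨h.1.symm, h.2.imp fun _ g => ⟨g.2, g.1⟩⟩⟩
  loopless := ⟨fun _ h => h.1 rfl⟩

/-- `ω` is an orientation of the configuration: it chooses a cyclic order of each block. -/
def IsOrientation (X : Config v) (ω : Fin v → Equiv.Perm (Fin v)) : Prop :=
  ∀ j, (ω j).IsCycle ∧ (ω j).support = X.B j

/-- `ρ` is a rotation system of the graph `G`: a cyclic order of the neighbours of each vertex.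
Rotation systems describe the cellular embeddings of `G` in closed oriented surfaces. -/
def IsRotation (G : SimpleGraph (Fin v)) (ρ : Fin v → Equiv.Perm (Fin v)) : Prop :=
  ∀ p, (ρ p).IsCycle ∧ ∀ q, q ∈ (ρ p).support ↔ G.Adj p q

/-- One step along the boundary of a face: the dart `(p, q)` (the edge `pq`, traversed from `p` to
`q`) is followed by the dart `(q, r)`, where `r` comes after `p` in the rotation at `q`. The faces
of the embedding are the orbits of this map on the darts. -/
def faceStep (ρ : Fin v → Equiv.Perm (Fin v)) (d : Fin v × Fin v) : Fin v × Fin v :=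
  (d.2, ρ d.2 d.1)

/-- The dart `d` goes along a block in the direction given by the orientation `ω`. -/
def IsBlockDart (X : Config v) (ω : Fin v → Equiv.Perm (Fin v)) (d : Fin v × Fin v) : Prop :=
  ∃ j, d.1 ∈ X.B j ∧ ω j d.1 = d.2

/-- `X` is upper embeddable in the orientation `ω`: there is a rotation system of the associated
graph such that each block bounds a face, in the direction given by `ω`, and there is exactly one
further face, that is, the remaining darts form exactly one orbit. -/
def UpperEmbeddable (X : Config v) (ω : Fin v → Equiv.Perm (Fin v)) : Prop :=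
  ∃ ρ : Fin v → Equiv.Perm (Fin v), IsRotation X.graph ρ ∧
    (∀ j, ∀ p ∈ X.B j, faceStep ρ (p, ω j p) = (ω j p, ω j (ω j p))) ∧
    (∃ d : Fin v × Fin v, X.graph.Adj d.1 d.2 ∧ ¬ IsBlockDart X ω d) ∧
    ∀ d d' : Fin v × Fin v, X.graph.Adj d.1 d.2 → ¬ IsBlockDart X ω d →
      X.graph.Adj d'.1 d'.2 → ¬ IsBlockDart X ω d' → ∃ n : ℕ, (faceStep ρ)^[n] d = d'

end Pool.Agent.V11226.UE
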