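import Pool.Agent.V11226.UE.Walk
set_option autoImplicit false

/-!
# The configuration and the walk along the faces, in tables

The flag `3 p + i` is the point `p` together with the `i`-th block through `p`.
-/

namespace Pool.Agent.V11226.UE

/-- the `k`-th entry of width `w` -/
def tb (T w k : ℕ) : ℕ := (T >>> (w * k)) % 2 ^ w

/-- points of the blocks -/
def tP : ℕ := 0x1c6a06e07da7de81e75f75c79c6dd6c45536546584d85d95d66165575545940ce31235244c4504903d13ce40e34f3421c52c62ca14a24b2482881c91c620604c1406840d3081084003040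

/-- blocks of the flags -/
def tB : ℕ := 0x207dd7de71e75b75c6a071b7db6a07836585985d55d651655365551851365709244f4503903cd3ce31238d44d3124042ca20a2472481881c52c718a1852c911a0c14c300c081142004040

/-- successors, predecessors, next flags in the second orientation -/
def tS2 : ℕ := 0x1a6dd81a71f81b79f12075e7dc75c7834d45994d56195176036565d855655704c34f48c39148d4110923d044e3ce40014620b14728b1892812c824a1c81c931b68250400d4c01820c5101
@[inherit_doc tS2]
def tQ2 : ℕ := 0x1c7de6de75a75c81c6da7db81e1207c45585d45d64d65595544d85195c365808e4503503cc3ce48e34c44d4900924451ca2462481481cb1c614a18b2412ca01d0c059a04f04421300c083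
@[inherit_doc tS2]
def tC2 : ℕ := 0x15afdba772c4fb353055a342ed2c368762bc360ca8cfa3c37511fcb80f1dc87b3228b9b243ac6ac54b25c957aa6cad3a666a1bb010e1a0f2e80e143a6481a2a84b1222789a2361519f055c50185381ad0830c390090309

/-- the same for the first orientation -/
def tS1 : ℕ := 0x1a6dd81a71f81b79f12075e7dc75c7834d45994d56195176036565d855655704c34f48c39148d4110923d044e3ce40014620b14728b1892812c824a1c81c931b68050400d4c41820c5081
@[inherit_doc tS1]
def tQ1 : ℕ := 0x1c7de6de75a75c81c6da7db81e1207c45585d45d64d65595544d85195c365808e4503503cc3ce48e34c44d4900924451ca2462481481cb1c614a18b2412ca01d0c259a04f04021300c103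
@[inherit_doc tS1]
def tC1 : ℕ := 0x15afdba772c4fb353055a342ed2c368762bc360ca8cfa3c37511fcb80f1dc87b3228b9b243ac6ac54b25c957aa6cad3a666a1bb010e1a0f2e80e143a6481a2a84b1222789a2361519f055c50685381ad0804c390090609
/-- the rotations for the first orientation -/
def tpi : ℕ := 0x1961122fd
/-- the positions of the flags on the long face -/
def tpos : ℕ := 0x13eed9b52e953a136a5bb17aad1997ee569d28f8a081518c0c81307480c58842344a5449cf317aa993658cdf3974dd4ab76d16bc70d5fb02e50898826cc9589161102518d1c270e3968182b811c0a4ae5184ee21f21780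
/-- a spanning tree -/
def tpar : ℕ := 0x1a69a11a1034d34c34c304c30c08c080145141141000000000
@[inherit_doc tpar]
def trank : ℕ := 0x30c30830820c30c20c2082082082081082082082041041040

/-- the rotation at a point -/
def rt (b : Bool) (x : ℕ) : ℕ := 3 * (x / 3) + (x % 3 + cond b 1 2) % 3

/-- one step along a face -/
def st (T : ℕ) (π : ℕ → Bool) (x : ℕ) : ℕ := tb T 7 (rt (π (x / 3)) x)

lemma st_congr (T : ℕ) (π π' : ℕ → Bool) (x : ℕ) (h : π (x / 3) = π' (x / 3)) :
    st T π x = st T π' x := by
  unfold st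
  rw [h]

/-- the choices at seven points -/
def sel (o : ℕ) (b0 b1 b2 b3 b4 b5 b6 : Bool) (p : ℕ) : Bool :=
  if p = o then b0 else if p = o + 1 then b1 else if p = o + 2 then b2 else
  if p = o + 3 then b3 else if p = o + 4 then b4 else if p = o + 5 then b5 else b6

lemma sel_eq (π : ℕ → Bool) (o p : ℕ) (h1 : o ≤ p) (h2 : p < o + 7) :
    sel o (π o) (π (o + 1)) (π (o + 2)) (π (o + 3)) (π (o + 4)) (π (o + 5)) (π (o + 6)) p = π p := by
  obtain ⟨t, rfl⟩ := Nat.exists_eq_add_of_le h1
  have : t < 7 := by omega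
  unfold sel
  interval_cases t <;> simp

/-- the test of a fragment -/
def chk (f : ℕ → ℕ) (lo e1 r1 e2 r2 : ℕ) : Bool :=
  (walk f lo (lo + 21) 21 e1 == r1 && walk f lo (lo + 21) 21 e2 == r2) ||
    (List.range 21).any fun i => cyc f lo (lo + 21) (lo + i) 21 (lo + i)

set_option maxRecDepth 100000 in
theorem chk0 : ∀ b0 b1 b2 b3 b4 b5 b6 : Bool,
    chk (st tC2 (sel 5 b0 b1 b2 b3 b4 b5 b6)) 15 24 5 15 2 = true := by decide +kernel

set_option maxRecDepth 100000 in
theorem chk1 : ∀ b0 b1 b2 b3 b4 b5 b6 : Bool,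
    chk (st tC2 (sel 12 b0 b1 b2 b3 b4 b5 b6)) 36 45 8 36 15 = true := by decide +kernel

set_option maxRecDepth 100000 in
theorem chk2 : ∀ b0 b1 b2 b3 b4 b5 b6 : Bool,
    chk (st tC2 (sel 19 b0 b1 b2 b3 b4 b5 b6)) 57 66 11 57 7 = true := by decide +kernel

set_option maxRecDepth 100000 in
theorem chk3 : ∀ b0 b1 b2 b3 b4 b5 b6 : Bool,
    chk (st tC2 (sel 26 b0 b1 b2 b3 b4 b5 b6)) 78 87 14 78 13 = true := by decide +kernel

/-- the effect of the fragments -/
def J (z : ℕ) : ℕ :=
  if z = 24 then 5 else if z = 15 then 2 else if z = 45 then 8 else if z = 36 then 15 else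
  if z = 66 then 11 else if z = 57 then 7 else if z = 87 then 14 else if z = 78 then 13 else z

/-- the first return map to the flags of the first five points -/
def Mc (π : ℕ → Bool) (x : ℕ) : ℕ := J (J (st tC2 π x))

/-- the test of the first return map -/
def mchk (M : ℕ → ℕ) : Bool :=
  (List.range 15).all (fun x => decide (M x < 15)) &&
  ((List.range 15).any fun m => decide (1 ≤ m) && (M^[m] 0 == 0) &&
    (List.range 15).any fun y => (List.range m).all fun i => !(M^[i] 0 == y))

set_option maxRecDepth 100000 in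
theorem mchk_all : ∀ b0 b1 b2 b3 b4 : Bool,
    mchk (Mc (sel 0 b0 b1 b2 b3 b4 false false)) = true := by decide +kernel

end Pool.Agent.V11226.UE
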