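import Pool.Agent.V11226.UE.Data
set_option autoImplicit false

/-!
# In the second orientation there is never one long face
-/

namespace Pool.Agent.V11226.UE

lemma walk_congr (f g : ℕ → ℕ) (lo hi : ℕ) (h : ∀ x, lo ≤ x → x < hi → f x = g x) (n x : ℕ) :
    walk f lo hi n x = walk g lo hi n x := by
  induction n generalizing x with
  | zero => rfl
  | succ n ih =>
    rw [walk, walk]
    by_cases hx : lo ≤ x ∧ x < hi
    · rw [if_pos hx, if_pos hx, h x hx.1 hx.2, ih]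
    · rw [if_neg hx, if_neg hx]

lemma cyc_congr (f g : ℕ → ℕ) (lo hi : ℕ) (h : ∀ x, lo ≤ x → x < hi → f x = g x) (z n y : ℕ) :
    cyc f lo hi z n y = cyc g lo hi z n y := by
  induction n generalizing y with
  | zero => rfl
  | succ n ih =>
    rw [cyc, cyc]
    by_cases h1 : lo ≤ y
    · by_cases h2 : y < hi
      · rw [h y h1 h2, ih]
      · simp [h2]
    · simp [h1]

lemma chk_congr (f g : ℕ → ℕ) (lo e1 r1 e2 r2 : ℕ) (h : ∀ x, lo ≤ x → x < lo + 21 → f x = g x) :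
    chk f lo e1 r1 e2 r2 = chk g lo e1 r1 e2 r2 := by
  unfold chk
  rw [walk_congr f g lo _ h, walk_congr f g lo _ h]
  simp only [cyc_congr f g lo _ h]

lemma frag (π : ℕ → Bool) (o e1 r1 e2 r2 : ℕ) (ho : 5 ≤ o)
    (hc : ∀ b0 b1 b2 b3 b4 b5 b6 : Bool,
      chk (st tC2 (sel o b0 b1 b2 b3 b4 b5 b6)) (3 * o) e1 r1 e2 r2 = true)
    (htr : ∀ x < 99, ∀ y < 99, ∃ n, (st tC2 π)^[n] x = y) (hlt : 3 * o + 21 ≤ 99) :
    (∃ m, (st tC2 π)^[m] e1 = r1 ∧ ∀ j < m, 15 ≤ (st tC2 π)^[j] e1) ∧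
    (∃ m, (st tC2 π)^[m] e2 = r2 ∧ ∀ j < m, 15 ≤ (st tC2 π)^[j] e2) := by
  have h1 := hc (π o) (π (o + 1)) (π (o + 2)) (π (o + 3)) (π (o + 4)) (π (o + 5)) (π (o + 6))
  rw [chk_congr _ (st tC2 π) _ _ _ _ _ (fun x hx1 hx2 => st_congr _ _ _ x
    (sel_eq π o (x / 3) (by omega) (by omega)))] at h1
  unfold chk at h1
  rw [Bool.or_eq_true, Bool.and_eq_true, beq_iff_eq, beq_iff_eq, List.any_eq_true] at h1
  rcases h1 with ⟨h2, h3⟩ | ⟨i, hi, h2⟩
  · constructor
    · obtain ⟨m, _, h4, h5⟩ := walk_spec (st tC2 π) (3 * o) (3 * o + 21) 21 e1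
      exact ⟨m, h4.trans h2, fun j hj => by have := (h5 j hj).1; omega⟩
    · obtain ⟨m, _, h4, h5⟩ := walk_spec (st tC2 π) (3 * o) (3 * o + 21) 21 e2
      exact ⟨m, h4.trans h3, fun j hj => by have := (h5 j hj).1; omega⟩
  · exfalso
    obtain ⟨m, hm, h4, h5⟩ := cyc_spec _ _ _ _ _ _ h2
    rw [List.mem_range] at hi
    have h6 := cyc_stay (st tC2 π) (fun y => 3 * o ≤ y ∧ y < 3 * o + 21) _ m hm h4 h5
    obtain ⟨n, hn⟩ := htr (3 * o + i) (by omega) 0 (by norm_num)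
    have := (h6 n).1
    omega

lemma J_step (π : ℕ → Bool) (htr : ∀ x < 99, ∀ y < 99, ∃ n, (st tC2 π)^[n] x = y) (z : ℕ) :
    ∃ m, (st tC2 π)^[m] z = J z ∧ ∀ j < m, 15 ≤ (st tC2 π)^[j] z := by
  have f0 := frag π 5 24 5 15 2 (by norm_num) chk0 htr (by norm_num)
  have f1 := frag π 12 45 8 36 15 (by norm_num) chk1 htr (by norm_num)
  have f2 := frag π 19 66 11 57 7 (by norm_num) chk2 htr (by norm_num)
  have f3 := frag π 26 87 14 78 13 (by norm_num) chk3 htr (by norm_num)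
  unfold J
  split_ifs with h1 h2 h3 h4 h5 h6 h7 h8
  · rw [h1]; exact f0.1
  · rw [h2]; exact f0.2
  · rw [h3]; exact f1.1
  · rw [h4]; exact f1.2
  · rw [h5]; exact f2.1
  · rw [h6]; exact f2.2
  · rw [h7]; exact f3.1
  · rw [h8]; exact f3.2
  · exact ⟨0, rfl, by simp⟩

lemma M_step (π : ℕ → Bool) (htr : ∀ x < 99, ∀ y < 99, ∃ n, (st tC2 π)^[n] x = y) (x : ℕ) :
    ∃ m, 1 ≤ m ∧ (st tC2 π)^[m] x = Mc π x ∧ ∀ j, 0 < j → j < m → 15 ≤ (st tC2 π)^[j] x := by
  set f := st tC2 π with hf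
  obtain ⟨m1, h1, h2⟩ := J_step π htr (f x)
  obtain ⟨m2, h3, h4⟩ := J_step π htr (J (f x))
  rw [← hf] at h1 h2 h3 h4
  refine ⟨m2 + m1 + 1, by omega, ?_, ?_⟩
  · rw [Function.iterate_succ_apply, Function.iterate_add_apply, h1, h3]
    rfl
  · intro j hj0 hj
    obtain ⟨i, rfl⟩ : ∃ i, j = i + 1 := ⟨j - 1, by omega⟩
    rw [Function.iterate_succ_apply]
    by_cases hi : i < m1
    · exact h2 i hi
    · rw [show i = (i - m1) + m1 by omega, Function.iterate_add_apply, h1]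
      exact h4 _ (by omega)

/-- **no long face in the second orientation** -/
theorem neg (π : ℕ → Bool) : ¬ ∀ x < 99, ∀ y < 99, ∃ n, (st tC2 π)^[n] x = y := by
  intro htr
  set M := Mc (sel 0 (π 0) (π 1) (π 2) (π 3) (π 4) false false) with hM
  have hMM : ∀ x < 15, Mc π x = M x := by
    intro x hx
    rw [hM]
    unfold Mc
    rw [st_congr tC2 π (sel 0 (π 0) (π 1) (π 2) (π 3) (π 4) false false) x]
    have : x / 3 < 5 := by omega
    unfold sel
    interval_cases h : x / 3 <;> simp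
  have hc := mchk_all (π 0) (π 1) (π 2) (π 3) (π 4)
  rw [← hM] at hc
  unfold mchk at hc
  rw [Bool.and_eq_true, List.all_eq_true, List.any_eq_true] at hc
  obtain ⟨h1, m, hm, h2⟩ := hc
  rw [Bool.and_eq_true, Bool.and_eq_true, decide_eq_true_eq, beq_iff_eq, List.any_eq_true] at h2
  obtain ⟨⟨hm1, h3⟩, y, hy, h4⟩ := h2
  rw [List.all_eq_true] at h4
  rw [List.mem_range] at hy hm
  have h1' : ∀ x < 15, M x < 15 := fun x hx => by
    have := h1 x (List.mem_range.2 hx)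
    simpa using this
  have h5 : ∀ i, M^[i] 0 < 15 := by
    intro i
    induction i with
    | zero => exact (by norm_num : 0 < 15)
    | succ i ih => rw [Function.iterate_succ_apply']; exact h1' _ ih
  have key := macro_orbit (st tC2 π) M 15 (by
      intro x hx
      obtain ⟨m, g1, g2, g3⟩ := M_step π htr x
      exact ⟨m, g1, g2.trans (hMM x hx), g3⟩)
    (fun x => ∃ i < m, x = M^[i] 0) (by
      rintro x ⟨i, hi, rfl⟩
      refine ⟨h5 i, ?_⟩
      show ∃ j < m, M (M^[i] 0) = M^[j] 0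
      rw [← Function.iterate_succ_apply' M]
      by_cases h : i + 1 < m
      · exact ⟨i + 1, h, rfl⟩
      · have : i.succ = m := by omega
        rw [this, h3]
        exact ⟨0, by omega, rfl⟩)
  obtain ⟨n, hn⟩ := htr 0 (by norm_num) y (by omega)
  obtain ⟨i, hi, hiy⟩ := key n 0 ⟨0, by omega, rfl⟩ (by rw [hn]; exact hy)
  have h6 := h4 i (List.mem_range.2 hi)
  rw [hn] at hiy
  rw [← hiy] at h6
  simp at h6

end Pool.Agent.V11226.UE
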