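import Pool.Agent.V11226.UE.Real
import Pool.Agent.V11226.UE.Neg
set_option autoImplicit false

/-!
# Upper embeddable in one orientation but not in the other
-/

namespace Pool.Agent.V11226.UE

open Finset Equiv Equiv.Perm

lemma derange : ∀ τ : Fin 3 → Fin 3, (∀ i j, τ i = τ j → i = j) → (∀ i, τ i ≠ i) →
    ∃ c : Bool, ∀ i, τ i = i + cond c 1 2 := by decide

/-- the rotation at a point with three block faces -/
lemma rot_cases {α : Type*} [Fintype α] [DecidableEq α] (σ : Perm α) (hσ : σ.IsCycle)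
    (a b : Fin 3 → α) (ha : Function.Injective a) (hab : ∀ i j, a i ≠ b j)
    (hs : ∀ q ∈ σ.support, ∃ i, q = a i ∨ q = b i) (h : ∀ i, σ (a i) = b i) :
    ∃ c : Bool, ∀ i, σ (b i) = a (i + cond c 1 2) := by
  have hsa : ∀ i, a i ∈ σ.support := fun i => by
    rw [mem_support, h]
    exact (hab i i).symm
  have hsb : ∀ i, b i ∈ σ.support := fun i => by
    rw [← h]
    exact apply_mem_support.2 (hsa i)
  have h1 : ∀ i, ∃ j, σ (b i) = a j := by
    intro i
    obtain ⟨j, hj | hj⟩ := hs _ (apply_mem_support.2 (hsb i))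
    · exact ⟨j, hj⟩
    · exfalso
      rw [← h j] at hj
      exact hab j i (σ.injective hj).symm
  choose τ hτ using h1
  have hb : ∀ i j, b i = b j → i = j := by
    intro i j hij
    rw [← h, ← h] at hij
    exact ha (σ.injective hij)
  have hinj : ∀ i j, τ i = τ j → i = j := by
    intro i j hij
    apply hb
    apply σ.injective
    rw [hτ, hτ, hij]
  have hne : ∀ i, τ i ≠ i := by
    intro i hi
    have h2 : σ (b i) = a i := by rw [hτ, hi]
    obtain ⟨i', hi'⟩ := (by decide : ∀ i : Fin 3, ∃ i' : Fin 3, i' ≠ i) i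
    obtain ⟨n, hn⟩ := hσ.exists_pow_eq (mem_support.1 (hsa i)) (mem_support.1 (hsa i'))
    have h3 : ∀ n : ℕ, (σ ^ n) (a i) = a i ∨ (σ ^ n) (a i) = b i := by
      intro n
      induction n with
      | zero => left; rfl
      | succ n ih =>
        rw [pow_succ', Perm.mul_apply]
        rcases ih with ih | ih
        · right; rw [ih, h]
        · left; rw [ih, h2]
    rcases h3 n with h4 | h4
    · rw [hn] at h4
      exact hi' (ha h4)
    · rw [hn] at h4
      exact hab _ _ h4
  obtain ⟨c, hc⟩ := derange τ hinj hne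
  exact ⟨c, fun i => by rw [hτ, hc]⟩

lemma pt_fl (p : Fin 33) (i : Fin 3) : pt (3 * p + i) = p := by
  unfold pt
  have : (3 * (p : ℕ) + i) / 3 = p := by omega
  rw [this]
  simp

lemma adj_iff (p q : Fin 33) : X.graph.Adj p q ↔ p ≠ q ∧ ∃ j, p ∈ X.B j ∧ q ∈ X.B j := Iff.rfl

/-- the darts of the second orientation -/
def D2 (x : ℕ) : Fin 33 × Fin 33 := (s2 x, pt x)

lemma D2_adj (x : Fin 99) : X.graph.Adj (D2 x).1 (D2 x).2 ∧ ¬ IsBlockDart X w2 (D2 x) := by
  constructor
  · rw [adj_iff]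
    refine ⟨?_, bk x, ?_, ?_⟩
    · exact ne2 x
    · rw [a2]; simp [D2]
    · rw [a2]; simp [D2]
  · rintro ⟨j, hj1, hj2⟩
    exact f2 x j hj1 hj2

lemma D2_inj {x y : ℕ} (hx : x < 99) (hy : y < 99) (h : D2 x = D2 y) : x = y := by
  have h3 := Prod.mk.inj h
  have := h2 ⟨x, hx⟩ ⟨y, hy⟩ h3.2 h3.1
  exact congrArg Fin.val this

theorem not_upper : ¬ UpperEmbeddable X w2 := by
  rintro ⟨ρ, hρ, hblock, -, htr⟩
  have hab : ∀ x : Fin 99, ρ (pt x) (q2 x) = s2 x := by
    intro x
    have h3 := hblock (bk x) (q2 x) (by rw [a2]; simp)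
    obtain ⟨h4, h5, _⟩ := c2 x
    rw [h4, h5] at h3
    exact (Prod.mk.inj h3).2
  have key : ∀ p : Fin 33, ∃ c : Bool, ∀ i : Fin 3,
      ρ p (s2 (3 * p + i)) = q2 (3 * p + (i + cond c 1 2 : Fin 3)) := by
    intro p
    have hd := d2 p
    simp only [List.nodup_cons, List.mem_cons, List.not_mem_nil, or_false, not_or,
      List.nodup_nil, and_true, not_false_eq_true] at hd
    obtain ⟨⟨_, _, _, _, _, _⟩, ⟨h1, h2, h3, h4, h5⟩, ⟨h6, h7, h8, h9⟩, ⟨h10, h11, h12⟩,
      ⟨h13, h14⟩, h15⟩ := hd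
    refine rot_cases (ρ p) (hρ p).1 (fun i : Fin 3 => q2 (3 * p + i)) (fun i => s2 (3 * p + i))
      ?_ ?_ ?_ ?_
    · intro i j hij
      fin_cases i <;> fin_cases j <;> simp at hij ⊢
      · exact h2 hij
      · exact h4 hij
      · exact h2 hij.symm
      · exact h11 hij
      · exact h4 hij.symm
      · exact h11 hij.symm
    · intro i j hij
      fin_cases i <;> fin_cases j <;> simp at hij
      · exact h1 hij
      · exact h3 hij
      · exact h5 hij
      · exact h6 hij.symm
      · exact h10 hij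
      · exact h12 hij
      · exact h8 hij.symm
      · exact h13 hij.symm
      · exact h15 hij
    · intro q hq
      rw [(hρ p).2, adj_iff] at hq
      obtain ⟨hne, j, hj1, hj2⟩ := hq
      obtain ⟨i, rfl⟩ := b1 p j hj1
      have hx : 3 * (p : ℕ) + i < 99 := by omega
      have h16 := a2 ⟨3 * p + i, hx⟩
      simp only at h16
      rw [h16, pt_fl] at hj2
      simp only [mem_insert, mem_singleton] at hj2
      rcases hj2 with h17 | h17 | h17
      · exact absurd h17.symm hne
      · exact ⟨i, Or.inr h17⟩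
      · exact ⟨i, Or.inl h17⟩
    · intro i
      have hx : 3 * (p : ℕ) + i < 99 := by omega
      have := hab ⟨3 * p + i, hx⟩
      simp only [pt_fl] at this
      exact this
  choose c hc using key
  set π : ℕ → Bool := fun n => if h : n < 33 then c ⟨n, h⟩ else false with hπ
  have hstep : ∀ x < 99, faceStep ρ (D2 x) = D2 (st tC2 π x) ∧ st tC2 π x < 99 := by
    intro x hx
    obtain ⟨p, i, rfl⟩ : ∃ (p : Fin 33) (i : Fin 3), x = 3 * p + i :=
      ⟨⟨x / 3, by omega⟩, ⟨x % 3, by omega⟩, by simp only; omega⟩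
    have e1 : (3 * (p : ℕ) + i) / 3 = p := by omega
    have e2 : (3 * (p : ℕ) + i) % 3 = i := by omega
    have e3 : π p = c p := by
      rw [hπ]
      simp [p.2]
    have e4 : rt (π ((3 * (p : ℕ) + i) / 3)) (3 * p + i) =
        3 * p + (i + cond (c p) 1 2 : Fin 3) := by
      rw [e1, e3]
      unfold rt
      rw [e1, e2]
      cases c p <;> fin_cases i <;> rfl
    have hy : 3 * (p : ℕ) + (i + cond (c p) 1 2 : Fin 3) < 99 := by omega
    have e5 := g2 ⟨_, hy⟩
    simp only [pt_fl] at e5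
    unfold st
    rw [e4]
    refine ⟨?_, e5.2.2⟩
    unfold faceStep D2
    simp only
    rw [e5.1, e5.2.1, pt_fl, hc]
  have hit : ∀ n x, x < 99 → (faceStep ρ)^[n] (D2 x) = D2 ((st tC2 π)^[n] x) ∧
      (st tC2 π)^[n] x < 99 := by
    intro n
    induction n with
    | zero => exact fun x hx => ⟨rfl, hx⟩
    | succ n ih =>
      intro x hx
      obtain ⟨h3, h4⟩ := hstep x hx
      rw [Function.iterate_succ_apply, Function.iterate_succ_apply, h3]
      exact ih _ h4
  refine neg π fun x hx y hy => ?_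
  obtain ⟨h3, h4⟩ := D2_adj ⟨x, hx⟩
  obtain ⟨h5, h6⟩ := D2_adj ⟨y, hy⟩
  obtain ⟨n, hn⟩ := htr _ _ h3 h4 h5 h6
  refine ⟨n, ?_⟩
  obtain ⟨h7, h8⟩ := hit n x hx
  simp only at hn
  rw [h7] at hn
  exact D2_inj h8 hy hn

/-! ## the first orientation -/

/-- the darts of the first orientation -/
def D1 (x : ℕ) : Fin 33 × Fin 33 := (s1 x, pt x)

/-- the rotation system -/
def rho (p : Fin 33) : Perm (Fin 33) := (lst p).formPerm

lemma lst_length (p : Fin 33) : (lst p).length = 6 := by
  unfold lst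
  split_ifs <;> rfl

lemma exists_D1 (d : Fin 33 × Fin 33) (h : X.graph.Adj d.1 d.2) (hb : ¬ IsBlockDart X w1 d) :
    ∃ x < 99, d = D1 x := by
  rw [adj_iff] at h
  obtain ⟨hne, j, hj1, hj2⟩ := h
  obtain ⟨i, rfl⟩ := b1 d.2 j hj2
  have hx : 3 * (d.2 : ℕ) + i < 99 := by omega
  have h3 := a1 ⟨_, hx⟩
  have h4 := c1 ⟨_, hx⟩
  simp only [pt_fl] at h3 h4
  have hj1' := hj1
  rw [h3] at hj1'
  simp only [mem_insert, mem_singleton] at hj1'
  refine ⟨_, hx, ?_⟩
  rcases hj1' with h5 | h5 | h5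
  · exact absurd h5 hne
  · refine Prod.ext ?_ ?_
    · exact h5
    · exact (pt_fl d.2 i).symm
  · refine absurd ⟨_, hj1, ?_⟩ hb
    rw [h5]
    exact h4.1

theorem upper : UpperEmbeddable X w1 := by
  refine ⟨rho, ?_, ?_, ?_, ?_⟩
  · intro p
    refine ⟨List.isCycle_formPerm (l1 p) (by rw [lst_length]; norm_num), fun q => ?_⟩
    unfold rho
    rw [List.support_formPerm_of_nodup _ (l1 p), List.mem_toFinset, l2, adj_iff]
    intro x hx
    have := lst_length p
    rw [hx] at this
    simp at this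
  · intro j p hp
    have := l3 j p hp
    unfold faceStep rho
    simp only
    rw [this]
  · refine ⟨D1 0, ?_, ?_⟩
    · rw [adj_iff]
      have h3 := a1 0
      refine ⟨ne1 0, bk 0, ?_, ?_⟩
      · have : s1 0 ∈ X.B (bk (0 : Fin 99)) := by rw [h3]; simp
        exact this
      · have : pt 0 ∈ X.B (bk (0 : Fin 99)) := by rw [h3]; simp
        exact this
    · rintro ⟨j, hj1, hj2⟩
      exact f1 0 j hj1 hj2
  · intro d d' hd1 hd2 hd1' hd2'
    obtain ⟨x, hx, rfl⟩ := exists_D1 d hd1 hd2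
    obtain ⟨y, hy, rfl⟩ := exists_D1 d' hd1' hd2'
    set f := st tC1 (fun n => tpi.testBit n) with hf
    have hit : ∀ n x, x < 99 → (faceStep rho)^[n] (D1 x) = D1 (f^[n] x) ∧ f^[n] x < 99 := by
      intro n
      induction n with
      | zero => exact fun x hx => ⟨rfl, hx⟩
      | succ n ih =>
        intro x hx
        obtain ⟨h3, h4⟩ := l4 ⟨x, hx⟩
        rw [Function.iterate_succ_apply, Function.iterate_succ_apply]
        have : faceStep rho (D1 x) = D1 (f x) := h3
        rw [this]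
        exact ih _ h4
    obtain ⟨_, h3⟩ := l5 ⟨x, hx⟩
    obtain ⟨h4, _⟩ := l5 ⟨y, hy⟩
    refine ⟨tb tpos 7 y + (99 - tb tpos 7 x), ?_⟩
    rw [(hit _ x hx).1, Function.iterate_add_apply]
    have h5 : f^[99 - tb tpos 7 x] x = 0 := h3
    have h6 : f^[tb tpos 7 y] 0 = y := h4
    rw [h5, h6]

lemma connected : X.graph.Connected := by
  have key : ∀ n, ∀ p : Fin 33, tb trank 6 p = n → X.graph.Reachable p 0 := by
    intro n
    induction n using Nat.strong_induction_on with
    | _ n ih =>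
      intro p hp
      by_cases h0 : p = 0
      · rw [h0]
      · obtain ⟨h3, h4⟩ := l6 p h0
        have h5 : X.graph.Adj p (par p) := h3
        exact h5.reachable.trans (ih _ (by omega) _ rfl)
  have : Nonempty (Fin 33) := ⟨0⟩
  exact ⟨fun p q => (key _ p rfl).trans (key _ q rfl).symm⟩

lemma orient2 : IsOrientation X w2 := by
  intro j
  have h := (o1 j).1
  refine ⟨List.isCycle_formPerm h (by simp), ?_⟩
  unfold w2
  rw [List.support_formPerm_of_nodup _ h (by intro x hx; simp at hx)]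
  ext q
  simp [X]

lemma orient1 : IsOrientation X w1 := by
  intro j
  unfold w1
  split_ifs with hj
  · have h := (o1 j).2
    refine ⟨List.isCycle_formPerm h (by simp), ?_⟩
    rw [List.support_formPerm_of_nodup _ h (by intro x hx; simp at hx)]
    ext q
    simp [X]
    tauto
  · exact orient2 j

end Pool.Agent.V11226.UE
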