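import Pool.Agent.V11226.UE.Config
import Pool.Agent.V11226.UE.Data
set_option autoImplicit false

/-!
# The configuration as an object, and what the tables mean
-/

namespace Pool.Agent.V11226.UE

open Finset

/-- the `t`-th point of the block `j` -/
def P (j : Fin 33) (t : ℕ) : Fin 33 := Fin.ofNat 33 (tb tP 6 (3 * j + t))
/-- the point of a flag -/
def pt (x : ℕ) : Fin 33 := Fin.ofNat 33 (x / 3)
/-- the block of a flag -/
def bk (x : ℕ) : Fin 33 := Fin.ofNat 33 (tb tB 6 x)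
/-- successors and predecessors -/
def s2 (x : ℕ) : Fin 33 := Fin.ofNat 33 (tb tS2 6 x)
@[inherit_doc s2]
def q2 (x : ℕ) : Fin 33 := Fin.ofNat 33 (tb tQ2 6 x)
@[inherit_doc s2]
def s1 (x : ℕ) : Fin 33 := Fin.ofNat 33 (tb tS1 6 x)
@[inherit_doc s2]
def q1 (x : ℕ) : Fin 33 := Fin.ofNat 33 (tb tQ1 6 x)

/-- the configuration -/
def X : Config 33 where
  B j := {P j 0, P j 1, P j 2}
  card_B := by decide +kernel
  deg := by decide +kernel
  lin := by decide +kernel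

/-- the second orientation -/
def w2 (j : Fin 33) : Equiv.Perm (Fin 33) := List.formPerm [P j 0, P j 1, P j 2]
/-- the first orientation -/
def w1 (j : Fin 33) : Equiv.Perm (Fin 33) :=
  if j = 1 then List.formPerm [P j 0, P j 2, P j 1] else List.formPerm [P j 0, P j 1, P j 2]

set_option maxRecDepth 100000

theorem a1 : ∀ x : Fin 99, X.B (bk x) = {pt x, s1 x, q1 x} := by decide +kernel
theorem a2 : ∀ x : Fin 99, X.B (bk x) = {pt x, s2 x, q2 x} := by decide +kernel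
theorem b1 : ∀ p j : Fin 33, p ∈ X.B j → ∃ i : Fin 3, j = bk (3 * p + i) := by decide +kernel
theorem c1 : ∀ x : Fin 99, w1 (bk x) (q1 x) = pt x ∧ w1 (bk x) (pt x) = s1 x ∧
    w1 (bk x) (s1 x) = q1 x := by decide +kernel
theorem c2 : ∀ x : Fin 99, w2 (bk x) (q2 x) = pt x ∧ w2 (bk x) (pt x) = s2 x ∧
    w2 (bk x) (s2 x) = q2 x := by decide +kernel
theorem d1 : ∀ p : Fin 33, [p, q1 (3 * p), s1 (3 * p), q1 (3 * p + 1), s1 (3 * p + 1),
    q1 (3 * p + 2), s1 (3 * p + 2)].Nodup := by decide +kernel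
theorem d2 : ∀ p : Fin 33, [p, q2 (3 * p), s2 (3 * p), q2 (3 * p + 1), s2 (3 * p + 1),
    q2 (3 * p + 2), s2 (3 * p + 2)].Nodup := by decide +kernel
theorem f1 : ∀ x : Fin 99, ∀ j : Fin 33, s1 x ∈ X.B j → w1 j (s1 x) ≠ pt x := by decide +kernel
theorem f2 : ∀ x : Fin 99, ∀ j : Fin 33, s2 x ∈ X.B j → w2 j (s2 x) ≠ pt x := by decide +kernel
theorem g1 : ∀ y : Fin 99, s1 (tb tC1 7 y) = pt y ∧ pt (tb tC1 7 y) = q1 y ∧
    tb tC1 7 y < 99 := by decide +kernel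
theorem g2 : ∀ y : Fin 99, s2 (tb tC2 7 y) = pt y ∧ pt (tb tC2 7 y) = q2 y ∧
    tb tC2 7 y < 99 := by decide +kernel
theorem h1 : ∀ x y : Fin 99, pt x = pt y → s1 x = s1 y → x = y := by decide +kernel
theorem h2 : ∀ x y : Fin 99, pt x = pt y → s2 x = s2 y → x = y := by decide +kernel
theorem o1 : ∀ j : Fin 33, [P j 0, P j 1, P j 2].Nodup ∧ [P j 0, P j 2, P j 1].Nodup := by
  decide +kernel

theorem ne1 : ∀ x : Fin 99, s1 x ≠ pt x := by decide +kernel
theorem ne2 : ∀ x : Fin 99, s2 x ≠ pt x := by decide +kernel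

/-- the rotation in the first orientation -/
def lst (p : Fin 33) : List (Fin 33) :=
  if tpi.testBit p then [q1 (3 * p), s1 (3 * p), q1 (3 * p + 1), s1 (3 * p + 1), q1 (3 * p + 2),
    s1 (3 * p + 2)] else [q1 (3 * p), s1 (3 * p), q1 (3 * p + 2), s1 (3 * p + 2), q1 (3 * p + 1),
    s1 (3 * p + 1)]

theorem l1 : ∀ p : Fin 33, (lst p).Nodup := by decide +kernel
theorem l2 : ∀ p q : Fin 33, q ∈ lst p ↔ (p ≠ q ∧ ∃ j, p ∈ X.B j ∧ q ∈ X.B j) := by
  decide +kernel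
theorem l3 : ∀ j : Fin 33, ∀ p ∈ X.B j, (lst (w1 j p)).formPerm p = w1 j (w1 j p) := by
  decide +kernel
theorem l4 : ∀ x : Fin 99, ((pt x), (lst (pt x)).formPerm (s1 x)) =
    (s1 (st tC1 (fun n => tpi.testBit n) x), pt (st tC1 (fun n => tpi.testBit n) x)) ∧
    st tC1 (fun n => tpi.testBit n) x < 99 := by decide +kernel
theorem l5 : ∀ x : Fin 99, (st tC1 fun n => tpi.testBit n)^[tb tpos 7 x] 0 = x ∧
    (st tC1 fun n => tpi.testBit n)^[99 - tb tpos 7 x] x = 0 := by decide +kernel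

/-- the spanning tree -/
def par (p : Fin 33) : Fin 33 := Fin.ofNat 33 (tb tpar 6 p)
theorem l6 : ∀ p : Fin 33, p ≠ 0 → (p ≠ par p ∧ ∃ j, p ∈ X.B j ∧ par p ∈ X.B j) ∧
    tb trank 6 (par p) < tb trank 6 p := by decide +kernel

end Pool.Agent.V11226.UE
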