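import Mathlib
set_option autoImplicit false

/-!
# Walks: leaving a fragment, and first returns
-/

namespace Pool.Agent.V11226.UE

/-- follow `f` as long as the current point is in `[lo, hi)`, at most `n` steps -/
def walk (f : ℕ → ℕ) (lo hi : ℕ) : ℕ → ℕ → ℕ
  | 0, x => x
  | n + 1, x => if lo ≤ x ∧ x < hi then walk f lo hi n (f x) else x

/-- does the orbit of `y` come to `z` within `n` steps without leaving `[lo, hi)`? -/
def cyc (f : ℕ → ℕ) (lo hi z : ℕ) : ℕ → ℕ → Bool
  | 0, _ => false
  | n + 1, y => decide (lo ≤ y) && decide (y < hi) && (f y == z || cyc f lo hi z n (f y))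

lemma walk_spec (f : ℕ → ℕ) (lo hi : ℕ) (n x : ℕ) :
    ∃ m ≤ n, f^[m] x = walk f lo hi n x ∧ ∀ j < m, lo ≤ f^[j] x ∧ f^[j] x < hi := by
  induction n generalizing x with
  | zero => exact ⟨0, le_rfl, rfl, by simp⟩
  | succ n ih =>
    by_cases h : lo ≤ x ∧ x < hi
    · obtain ⟨m, hm, h1, h2⟩ := ih (f x)
      refine ⟨m + 1, by omega, ?_, ?_⟩
      · rw [walk, if_pos h, ← h1, Function.iterate_succ_apply]
      · intro j hj
        cases j with
        | zero => exact h
        | succ j =>
          rw [Function.iterate_succ_apply]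
          exact h2 j (by omega)
    · exact ⟨0, by omega, by rw [walk, if_neg h]; rfl, by simp⟩

lemma cyc_spec (f : ℕ → ℕ) (lo hi z : ℕ) (n y : ℕ) (h : cyc f lo hi z n y = true) :
    ∃ m, 1 ≤ m ∧ f^[m] y = z ∧ ∀ j < m, lo ≤ f^[j] y ∧ f^[j] y < hi := by
  induction n generalizing y with
  | zero => simp [cyc] at h
  | succ n ih =>
    rw [cyc, Bool.and_eq_true, Bool.and_eq_true, decide_eq_true_eq, decide_eq_true_eq,
      Bool.or_eq_true, beq_iff_eq] at h
    obtain ⟨⟨h1, h2⟩, h3 | h3⟩ := h
    · refine ⟨1, le_rfl, h3, ?_⟩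
      intro j hj
      have : j = 0 := by omega
      subst this
      exact ⟨h1, h2⟩
    · obtain ⟨m, hm, h4, h5⟩ := ih (f y) h3
      refine ⟨m + 1, by omega, by rw [Function.iterate_succ_apply]; exact h4, ?_⟩
      intro j hj
      cases j with
      | zero => exact ⟨h1, h2⟩
      | succ j =>
        rw [Function.iterate_succ_apply]
        exact h5 j (by omega)

/-- a periodic orbit stays where it is -/
lemma cyc_stay (f : ℕ → ℕ) (S : ℕ → Prop) (x m : ℕ) (hm : 1 ≤ m) (hx : f^[m] x = x)
    (hS : ∀ j < m, S (f^[j] x)) : ∀ n, S (f^[n] x) := by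
  intro n
  induction n using Nat.strong_induction_on with
  | _ n ih =>
    by_cases h : n < m
    · exact hS n h
    · have : f^[n] x = f^[n - m] x := by
        conv_lhs => rw [show n = (n - m) + m by omega, Function.iterate_add_apply, hx]
      rw [this]
      exact ih (n - m) (by omega)

/-- the points below `N` of the orbit are described by the first return map -/
lemma macro_orbit (f M : ℕ → ℕ) (N : ℕ)
    (hM : ∀ x < N, ∃ m, 1 ≤ m ∧ f^[m] x = M x ∧ ∀ j, 0 < j → j < m → N ≤ f^[j] x)
    (T : ℕ → Prop) (hT : ∀ x, T x → x < N ∧ T (M x)) :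
    ∀ n x, T x → f^[n] x < N → T (f^[n] x) := by
  intro n
  induction n using Nat.strong_induction_on with
  | _ n ih =>
    intro x hx hn
    obtain ⟨hxN, hMx⟩ := hT x hx
    obtain ⟨m, hm, h1, h2⟩ := hM x hxN
    by_cases h : n < m
    · rcases Nat.eq_zero_or_pos n with h0 | h0
      · subst h0; exact hx
      · exact absurd (h2 n h0 h) (by omega)
    · have e : f^[n] x = f^[n - m] (M x) := by
        conv_lhs => rw [show n = (n - m) + m by omega, Function.iterate_add_apply, h1]
      rw [e] at hn ⊢
      exact ih (n - m) (by omega) (M x) hMx hn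

end Pool.Agent.V11226.UE
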